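import Pool.Agent.helper46.U.Gen
import Pool.Agent.helper40.EY.WBez

set_option autoImplicit false
set_option linter.unusedSectionVars false

/-!
# UU-Fin: finite zero sets and generic linear forms
-/

namespace EY
namespace S2

open MvPolynomial Filter Topology

noncomputable section

/-- a finite dimensional quotient has a finite zero set -/
theorem finite_zeros {κ : Type*} [Fintype κ] (I : Ideal (MvPolynomial κ ℂ))
    [Module.Finite ℂ (MvPolynomial κ ℂ ⧸ I)] : {x : κ → ℂ | ∀ f ∈ I, eval x f = 0}.Finite := by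
  classical
  have h1 : ∀ j : κ, ∃ P : Polynomial ℂ, P ≠ 0 ∧ Polynomial.aeval (X j : MvPolynomial κ ℂ) P ∈ I := by
    intro j
    have hi : IsIntegral ℂ (Ideal.Quotient.mk I (X j)) := IsIntegral.of_finite ℂ _
    obtain ⟨P, hP, hP2⟩ := hi
    refine ⟨P, hP.ne_zero, ?_⟩
    rw [← Ideal.Quotient.eq_zero_iff_mem, ← hP2]
    have h3 := Polynomial.aeval_algHom_apply (Ideal.Quotient.mkₐ ℂ I) (X j) P
    rw [Ideal.Quotient.mkₐ_eq_mk] at h3
    rw [← h3]
    rfl
  choose P hP hPI using h1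
  refine (Set.Finite.pi (t := fun j => {c | c ∈ ((P j).roots.toFinset : Set ℂ)}) fun j =>
    ((P j).roots.toFinset : Finset ℂ).finite_toSet).subset ?_
  intro x hx
  rw [Set.mem_pi]
  intro j _
  have h4 := hx _ (hPI j)
  have h5 : eval x (Polynomial.aeval (X j : MvPolynomial κ ℂ) (P j)) = (P j).eval (x j) := by
    have h6 := Polynomial.aeval_algHom_apply (MvPolynomial.aeval x : MvPolynomial κ ℂ →ₐ[ℂ] ℂ) (X j) (P j)
    rw [MvPolynomial.aeval_X] at h6
    rw [← MvPolynomial.coe_aeval_eq_eval]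
    change MvPolynomial.aeval x _ = _
    rw [← h6, Polynomial.coe_aeval_eq_eval]
  rw [h5] at h4
  change x j ∈ (((P j).roots.toFinset : Finset ℂ) : Set ℂ)
  rw [Finset.mem_coe, Multiset.mem_toFinset, Polynomial.mem_roots (hP j)]
  exact h4

/-- a generic linear form -/
theorem exists_lin {κ : Type*} [Fintype κ] (S : Set (κ → ℂ)) (hS : S.Finite) (h0 : ∀ x ∈ S, x ≠ 0) :
    ∃ l : κ → ℂ, ∀ x ∈ S, ∑ j, l j * x j ≠ 0 := by
  classical
  have : Finite S := hS
  obtain ⟨f, hf⟩ := Module.exists_dual_forall_apply_ne_zero (K := ℂ) (fun x : S => (x : κ → ℂ))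
    (fun x => h0 x x.2)
  refine ⟨fun j => f (Pi.single j 1), fun x hx => ?_⟩
  have h1 := hf ⟨x, hx⟩
  have h2 : f x = ∑ j, f (Pi.single j 1) * x j := by
    conv_lhs => rw [pi_eq_sum_univ' x]
    rw [map_sum]
    refine Finset.sum_congr rfl fun j _ => ?_
    rw [map_smul, smul_eq_mul, mul_comm]
  rw [← h2]
  exact h1

end

end S2
end EY
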