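import Pool.Agent.helper46.U.Gen
import Pool.Agent.helper44.U.Odd
import Pool.Agent.helper66.UU.Fin

set_option autoImplicit false
set_option linter.unusedSectionVars false

/-!
# UU-S2: the step (S2) of (U) for even `q`

`φ = ψ(σ; x) + ε ∫_l^w t^a (t - l) (t - L)^e (t² - σ)^r dt`, `a + 1 + e + 2 r = q`, `L` a generic linear form:
`E(φ) = E(ψ) + (e + 2 r) q^K / 2`.
-/

namespace EY
namespace S2

open MvPolynomial Filter Topology EY.UO

noncomputable section

variable {ι : Type} [Fintype ι] [DecidableEq ι]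

/-- the critical points of `ψ(σ; x)` on `σ = 1` are finitely many -/
theorem crit_finite {q : ℕ} (hq : 0 < q) {ψ : MvPolynomial (Option ι) ℂ} (hψ : wh (w21 ι) (q + 1) ψ)
    (hnd : Nds ψ) : {x : ι → ℂ | ∀ i, eval (fun o : Option ι => o.elim 1 x) (pderiv (some i) ψ) = 0}.Finite := by
  have hx : ∀ i : ι, wh (w21 ι) q (pderiv (some i) ψ) := fun i => wh_pderiv hψ _ q rfl
  have h1 := (wAff (σ := Option ι) (w := w21 ι)
    (f := fun o => o.elim (X none - 1) fun i => pderiv (some i) ψ)
    (g := fun o => o.elim (X none) fun i => pderiv (some i) ψ)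
    (d := fun o => o.elim 2 fun _ => q)
    (by intro i; rcases i with _ | i <;> simp [w21])
    (by intro i; rcases i with _ | i <;> simp [hq])
    (by
      intro i
      rcases i with _ | i
      · exact wh_X (w21 ι) none
      · exact hx i)
    (by
      intro p hp
      have h3 := hp none
      simp only [Option.elim, eval_X] at h3
      exact hnd p h3 fun i => hp (some i))
    (by
      intro i
      rcases i with _ | i
      · have h4 : Top (w21 ι) 2 (X none - 1 : MvPolynomial (Option ι) ℂ) (X none) := by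
          have h5 := (Top.X (w21 ι) (none : Option ι)).add_lo (f' := -1)
            (wlt_mono (by simp [w21]) (wlt_neg (wh_one (w21 ι)).wlt))
          rw [← sub_eq_add_neg] at h5
          exact h5
        exact h4
      · exact Top.self (wh.wlt (hx i)))).1
  have h2 := finite_zeros (Ideal.span (Set.range fun o : Option ι =>
    (o.elim (X none - 1) fun i => pderiv (some i) ψ : MvPolynomial (Option ι) ℂ)))
  refine (h2.image fun p i => p (some i)).subset ?_
  intro x hx'
  refine ⟨fun o => o.elim 1 x, ?_, rfl⟩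
  intro f hf
  refine eval_span_zero' ?_ hf
  rintro _ ⟨o, rfl⟩
  rcases o with _ | i
  · simp
  · exact hx' i

/-- scaling -/
theorem eval_sc {n : ℕ} {ψ : MvPolynomial (Option ι) ℂ} (h : wh (w21 ι) n ψ) (c : ℂ) (p : Option ι → ℂ) :
    eval (fun o : Option ι => o.elim (c ^ 2 * p none) fun i => c * p (some i)) ψ = c ^ n * eval p ψ := by
  rw [← eval_wh46 h]
  congr 2
  funext o
  rcases o with _ | i <;> simp [w21]

/-- a linear form which does not vanish on the critical lines of `ψ` -/
theorem exists_L {q : ℕ} (hq : 0 < q) (hev : Even q) {ψ : MvPolynomial (Option ι) ℂ}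
    (hψ : wh (w21 ι) (q + 1) ψ) (hnd : Nds ψ) (hZ : ZZ ψ) :
    ∃ c : ι → ℂ, ∀ p : Option ι → ℂ, ∑ i, c i * p (some i) = 0 →
      (∀ i, eval p (pderiv (some i) ψ) = 0) → p = 0 := by
  obtain ⟨c, hc⟩ := exists_lin
    {x : ι → ℂ | (∀ i, eval (fun o : Option ι => o.elim 1 x) (pderiv (some i) ψ) = 0) ∧ x ≠ 0}
    ((crit_finite hq hψ hnd).subset fun x hx => hx.1) (fun x hx => hx.2)
  refine ⟨c, fun p hp1 hp2 => ?_⟩
  by_cases h0 : p none = 0
  · exact hnd p h0 hp2
  exfalso
  obtain ⟨s, hs⟩ := IsAlgClosed.exists_pow_nat_eq (p none) (n := 2) (by norm_num)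
  have hs0 : s ≠ 0 := by
    rintro rfl
    rw [zero_pow (by norm_num)] at hs
    exact h0 hs.symm
  have h1 : ∀ i, eval (fun o : Option ι => o.elim 1 fun i => s⁻¹ * p (some i)) (pderiv (some i) ψ) = 0 := by
    intro i
    have h2 := eval_sc (wh_pderiv hψ (some i) q rfl) s⁻¹ p
    rw [hp2 i, mul_zero, ← hs, ← mul_pow, inv_mul_cancel₀ hs0, one_pow] at h2
    exact h2
  by_cases hx : (fun i => s⁻¹ * p (some i)) = (0 : ι → ℂ)
  · have hp3 : ∀ i, p (some i) = 0 := by
      intro i
      have := congrFun hx i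
      exact (mul_eq_zero.mp this).resolve_left (inv_ne_zero hs0)
    have h3 : eval p ψ = 0 := by
      have h4 := eval_sc hψ (-1) p
      have h5 : (fun o : Option ι => o.elim ((-1) ^ 2 * p none) fun i => (-1) * p (some i)) = p := by
        funext o
        rcases o with _ | i
        · simp
        · simp [hp3 i]
      rw [h5, pow_succ, hev.neg_one_pow] at h4
      linear_combination h4 / 2
    have h6 := euler_eval hψ p
    rw [h3, mul_zero, Fintype.sum_option] at h6
    rw [Finset.sum_eq_zero fun i _ => by rw [hp2 i]; ring, add_zero] at h6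
    have h7 : eval p (pderiv none ψ) = 0 := by
      rcases mul_eq_zero.mp h6 with h | h
      · simp [w21] at h
      · exact (mul_eq_zero.mp h).resolve_left h0
    have h8 := hZ p (by
      intro v
      rcases v with _ | v
      · exact h7
      · exact hp2 v)
    exact h0 (congrFun h8 none)
  · apply hc _ ⟨h1, hx⟩
    have h9 : ∀ j, c j * (s⁻¹ * p (some j)) = s⁻¹ * (c j * p (some j)) := fun j => by ring
    simp only [h9]
    rw [← Finset.mul_sum, hp1, mul_zero]


theorem up_eq (ψ : MvPolynomial (Option ι) ℂ) : up ψ = em ψ := rfl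

/-- the condition of the sheet `w = L(x)` for small `ε` -/
theorem L_open {q : ℕ} {ψ : MvPolynomial (Option ι) ℂ} (hψ : wh (w21 ι) (q + 1) ψ)
    {B : MvPolynomial (Option (Option ι)) ℂ} (hB : wh (vw ι) (q + 1) B) (c : ι → ℂ)
    (hc : ∀ p : Option ι → ℂ, ∑ i, c i * p (some i) = 0 → (∀ i, eval p (pderiv (some i) ψ) = 0) → p = 0) :
    ∀ᶠ ε in 𝓝 (0 : ℂ), ∀ p : Option (Option ι) → ℂ, p (some none) = 0 →
      ∑ i, c i * p (some (some i)) = 0 →
      (∀ i, eval p (pderiv (some (some i)) (up ψ + C ε * B)) = 0) → p = 0 := by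
  have hψx : ∀ i : ι, wh (vw ι) q (em (pderiv (some i) ψ)) := fun i => wh_up (wh_pderiv hψ (some i) q rfl)
  have hBx : ∀ i : ι, wh (vw ι) q (pderiv (some (some i)) B) := fun i => wh_pderiv hB _ q rfl
  have hsc : ∀ {n : ℕ} {χ : MvPolynomial (Option (Option ι)) ℂ}, wh (vw ι) n χ → ∀ (t : ℂ) (y : Option ι → ℂ),
      eval (pt3 ((t * y none) ^ 2) 0 fun i => t * y (some i)) χ =
        t ^ n * eval (pt3 (y none ^ 2) 0 fun i => y (some i)) χ := by
    intro n χ h t y
    rw [← eval_wh46 h]
    congr 2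
    funext o
    rcases o with _ | _ | i <;> simp [pt3, vw, mul_pow]
  have h1 : ∀ᶠ t in 𝓝 (0 : ℂ), ∀ y : Option ι → ℂ, (∀ o : Option ι,
      o.elim (∑ i, c i * y (some i))
        (fun i => eval (pt3 (y none ^ 2) 0 fun i => y (some i)) (em (pderiv (some i) ψ)) +
          t * eval (pt3 (y none ^ 2) 0 fun i => y (some i)) (pderiv (some (some i)) B)) = 0) → y = 0 := by
    refine open_zero (fun (o : Option ι) (t : ℂ) (y : Option ι → ℂ) =>
      o.elim (∑ i, c i * y (some i))
        (fun i => eval (pt3 (y none ^ 2) 0 fun i => y (some i)) (em (pderiv (some i) ψ)) +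
          t * eval (pt3 (y none ^ 2) 0 fun i => y (some i)) (pderiv (some (some i)) B)))
      (fun o => o.elim 1 fun _ => q) ?_ ?_ 0 ?_
    · intro o
      have h3 : Continuous fun z : ℂ × (Option ι → ℂ) => (fun i => z.2 (some i) : ι → ℂ) := by fun_prop
      have h4 : Continuous fun z : ℂ × (Option ι → ℂ) => z.2 none ^ 2 := by fun_prop
      rcases o with _ | i
      · simp only [Option.elim]
        fun_prop
      · exact (cont_pt3 h4 continuous_const h3 _).add
          (continuous_fst.mul (cont_pt3 h4 continuous_const h3 _))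
    · intro o t b y
      rcases o with _ | i
      · simp only [Option.elim, Pi.smul_apply, smul_eq_mul, pow_one, Finset.mul_sum]
        refine Finset.sum_congr rfl fun i _ => by ring
      · simp only [Option.elim, Pi.smul_apply, smul_eq_mul]
        rw [hsc (hψx i), hsc (hBx i)]
        ring
    · intro y hy
      have h3 := hc (fun o => o.elim (y none ^ 2) fun i => y (some i)) (by
        have := hy none
        simpa using this) (fun i => by
        have h4 := hy (some i)
        simp only [Option.elim, zero_mul, add_zero] at h4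
        rw [eval_em] at h4
        refine Eq.trans ?_ h4
        congr 2
        funext o
        rcases o with _ | o <;> rfl)
      funext o
      rcases o with _ | i
      · have h5 := congrFun h3 none
        exact pow_eq_zero_iff (two_ne_zero) |>.mp h5
      · exact congrFun h3 (some i)
  filter_upwards [h1] with ε h2
  intro p hp0 hp1 hp2
  obtain ⟨s, hs⟩ := IsAlgClosed.exists_pow_nat_eq (p none) (n := 2) (by norm_num)
  have hpt : pt3 (s ^ 2) 0 (fun i => p (some (some i))) = p := by
    funext o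
    rcases o with _ | _ | i
    · exact hs
    · exact hp0.symm
    · rfl
  have h3 := h2 (fun o => o.elim s fun i => p (some (some i))) (by
    intro o
    rcases o with _ | i
    · exact hp1
    · simp only [Option.elim]
      rw [hpt]
      have h4 := hp2 i
      rw [map_add, pderiv_C_mul, pderiv_up_some, map_add, map_mul, eval_C] at h4
      exact h4)
  have hs0 : s = 0 := congrFun h3 none
  funext o
  rcases o with _ | _ | i
  · rw [← hs, hs0]; simp
  · exact hp0
  · exact congrFun h3 (some i)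

/-- the count of the sheet `w = L(x)` -/
theorem FR_L {q : ℕ} (hq : 0 < q) {φ : MvPolynomial (Option (Option ι)) ℂ} (hφ : wh (vw ι) (q + 1) φ)
    {L : MvPolynomial (Option ι) ℂ} (hL : wh (w21 ι) 1 L)
    (h0 : ∀ p : Option (Option ι) → ℂ, p (some none) = 0 → eval (fun o => p (Option.map some o)) L = 0 →
      (∀ i, eval p (pderiv (some (some i)) φ) = 0) → p = 0) {n : ℕ} (hn : q ^ Fintype.card ι = 2 * n) :
    FR (I3 (Y ι - 1) (Y ι - em L) φ) n := by
  have hx : ∀ i : ι, wh (vw ι) q (pderiv (some (some i)) φ) := fun i => wh_pderiv hφ _ q rfl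
  have hF : wh (vw ι) 1 (Y ι - em L) := wh_sub (wh_X (vw ι) (some none)) (wh_up hL)
  obtain ⟨h1, h2⟩ := wAff (σ := Option (Option ι)) (w := vw ι) (f := q3 (Y ι - 1) (Y ι - em L) φ)
    (g := q3 (Y ι) (Y ι - em L) φ)
    (d := fun o => o.elim 1 fun o' => o'.elim 1 fun _ => q)
    (by intro i; rcases i with _ | i <;> simp [vw])
    (by intro i; rcases i with _ | _ | i <;> simp [hq])
    (by
      intro i
      rcases i with _ | _ | i
      · exact wh_X (vw ι) (some none)
      · exact hF
      · exact hx i)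
    (by
      intro p hp
      have h3 : p (some none) = 0 := by
        have := hp none
        simpa [q3] using this
      have h4 := hp (some none)
      simp only [q3, Option.elim, map_sub, eval_X] at h4
      rw [h3, zero_sub, neg_eq_zero, eval_em] at h4
      exact h0 p h3 h4 fun i => hp (some (some i)))
    (by
      intro i
      rcases i with _ | _ | i
      · have h4 := (Top.X (vw ι) (some none : Option (Option ι))).add_lo (f' := -1)
          (wlt_neg (wh_one (vw ι)).wlt)
        rw [← sub_eq_add_neg] at h4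
        exact h4
      · exact Top.self (wh.wlt hF)
      · exact Top.self (wh.wlt (hx i)))
  refine ⟨h1, ?_⟩
  rw [Fintype.prod_option, Fintype.prod_option, Fintype.prod_option, Fintype.prod_option] at h2
  simp only [vw, Option.elim, Finset.prod_const_one, mul_one, Finset.prod_const, Finset.card_univ, one_mul] at h2
  unfold I3
  omega

theorem sbY_id (F : MvPolynomial (Option (Option ι)) ℂ) : sbY (Y ι) F = F := by
  have : sbY (Y ι) = AlgHom.id ℂ (MvPolynomial (Option (Option ι)) ℂ) := by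
    apply MvPolynomial.algHom_ext
    intro o
    rcases o with _ | _ | o <;> simp
  exact AlgHom.congr_fun this F

/-- the derivative `φ_w / ε` of the step (S2) -/
def PP (ι : Type) [Fintype ι] [DecidableEq ι] (a e r : ℕ) (l L : MvPolynomial (Option ι) ℂ) :
    MvPolynomial (Option (Option ι)) ℂ :=
  Y ι ^ a * ((Y ι - em l) * ((Y ι - em L) ^ e * (Y ι ^ 2 - Sg ι) ^ r))

theorem wh_PP {a e r q : ℕ} (h : a + 1 + e + 2 * r = q) {l L : MvPolynomial (Option ι) ℂ}
    (hl : wh (w21 ι) 1 l) (hL : wh (w21 ι) 1 L) : wh (vw ι) q (PP ι a e r l L) := by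
  have h1 : wh (vw ι) a (Y ι ^ a) := by
    have := wh_pow (wh_X (vw ι) (some none)) a
    simpa [vw] using this
  have h2 : wh (vw ι) 1 (Y ι - em l) := wh_sub (wh_X (vw ι) (some none)) (wh_up hl)
  have h3 : wh (vw ι) e ((Y ι - em L) ^ e) := by
    have h6 := wh_pow (wh_sub (wh_X (vw ι) (some none)) (wh_up hL)) e
    rw [show vw ι (some none) * e = e by simp [vw]] at h6
    exact h6
  have h4 : wh (vw ι) (2 * r) ((Y ι ^ 2 - Sg ι) ^ r) :=
    wh_pow (wh_sub (wh_pow (wh_X (vw ι) (some none)) 2) (wh_X (vw ι) none)) r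
  have h5 := wh_mul h1 (wh_mul h2 (wh_mul h3 h4))
  have h6 : a + (1 + (e + 2 * r)) = q := by omega
  rw [h6] at h5
  exact h5

/-- **the step (S2)**, for all small `ε` -/
theorem step_ev {a e r q E : ℕ} (hq : 0 < q) (hev : Even q) (h : a + 1 + e + 2 * r = q)
    {ψ : MvPolynomial (Option ι) ℂ} (hψ : wh (w21 ι) (q + 1) ψ) (hnd : Nds ψ) (hZ : ZZ ψ)
    {l : MvPolynomial (Option ι) ℂ} (hl : wh (w21 ι) 1 l)
    (hE : FR (Ideal.span (Set.range (qR l ψ))) E) {n : ℕ} (hn : q ^ Fintype.card ι = 2 * n) :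
    ∃ B A : MvPolynomial (Option (Option ι)) ℂ, wh (vw ι) (q + 1) B ∧ pderiv (some none) B = A ∧
      (∀ p : Option (Option ι) → ℂ, p none = 0 → (∀ i, p (some (some i)) = 0) → eval p A = 0 →
        p (some none) = 0) ∧
      ∀ᶠ ε in 𝓝 (0 : ℂ), ε ≠ 0 → St ι q (E + (e + 2 * r) * n) (up ψ + C ε * B) ∧ ZZ (up ψ + C ε * B) := by
  obtain ⟨c, hc⟩ := exists_L hq hev hψ hnd hZ
  set L : MvPolynomial (Option ι) ℂ := ∑ i, C (c i) * X (some i) with hLdef
  have hL : wh (w21 ι) 1 L := wh_sum _ fun i _ => wh_C_mul _ (wh_X (w21 ι) (some i))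
  have hLe : ∀ p : Option ι → ℂ, eval p L = ∑ i, c i * p (some i) := by
    intro p
    rw [hLdef, map_sum]
    refine Finset.sum_congr rfl fun i _ => ?_
    rw [map_mul, eval_C, eval_X]
  set P := PP ι a e r l L with hP
  have hPw : wh (vw ι) q P := wh_PP h hl hL
  set B := sheetB P (Y ι) l with hBdef
  have hB : wh (vw ι) (q + 1) B := by
    refine wh_sheetB (k := 1) (n := q) ?_ (wh_X (vw ι) (some none)) hl rfl
    rw [vt_one]
    exact hPw
  have hA : pderiv (some none) B = P := by
    rw [hBdef, pderiv_sheetB_y, pderiv_X_self, mul_one, sbY_id]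
  have hPe : ∀ p : Option (Option ι) → ℂ, p none = 0 → (∀ i, p (some (some i)) = 0) →
      eval p P = p (some none) ^ q := by
    intro p hp0 hp1
    have h1 : ∀ l : MvPolynomial (Option ι) ℂ, wh (w21 ι) 1 l → eval p (em l) = 0 := by
      intro l hl
      rw [eval_em]
      have h2 : (fun o : Option ι => p (Option.map some o)) = 0 := by
        funext o
        rcases o with _ | o
        · exact hp0
        · exact hp1 o
      rw [h2]
      refine eval_zero_wh hl one_ne_zero ?_
      intro i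
      rcases i with _ | i <;> simp [w21]
    rw [hP, PP]
    simp only [map_mul, map_pow, map_sub, eval_X, h1 l hl, h1 L hL, hp0, sub_zero]
    rw [← h]
    ring
  have hA0 : ∀ p : Option (Option ι) → ℂ, p none = 0 → (∀ i, p (some (some i)) = 0) → eval p P = 0 →
      p (some none) = 0 := by
    intro p hp0 hp1 hp2
    rw [hPe p hp0 hp1] at hp2
    exact pow_eq_zero_iff hq.ne' |>.mp hp2
  refine ⟨B, P, hB, hA, hA0, ?_⟩
  filter_upwards [gen_nd hψ hnd hB hA hA0, gen_ZZ hψ hnd hZ hB hA hA0, L_open hψ hB c hc] with ε h1 h2 h3 hε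
  have h1 := h1 hε
  have h2 := h2 hε
  set φ := up ψ + C ε * B with hφ
  refine ⟨?_, h2⟩
  have hy : pderiv (some none) φ = C ε * P := by
    rw [hφ, map_add, pderiv_up_w, pderiv_C_mul, hA, zero_add]
  have hx : ∀ i : ι, Y ι - em l ∣ pderiv (some (some i)) φ - em (pderiv (some i) ψ) := by
    intro i
    rw [hφ, map_add, pderiv_up_some, pderiv_C_mul, up_eq, add_sub_cancel_left]
    refine Dvd.dvd.mul_left (pderiv_sheetB_x ?_ ?_ i) _
    · rw [hP, PP]
      simp
    · intro i
      rw [pderiv_X, Pi.single_eq_of_ne (by simp)]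
  have hEL : FR (I3 (Y ι - 1) (Y ι - em L) φ) n :=
    FR_L hq h1.wh hL (by
      intro p hp0 hp1 hp2
      rw [hLe] at hp1
      exact h3 p hp0 hp1 hp2) hn
  refine st_of h1.wh h1.ndx h1.nd ?_
  rw [hy, I3_C_mul ε hε, hP, PP, I3_unit 1 one_ne_zero (by
    rw [C_1]; exact sub_one_dvd_pow_sub_one _ _)]
  have h5 := FR_mul (FR_one hx (by rw [map_sub, elimY_y]; congr 1; exact elimY_rename 1 l) hE) (FR_mul (FR_pow hEL e) (FR_pow (bez_one hq h1.wh h1.ndx) r))
  have h6 : E + (e * n + r * q ^ Fintype.card ι) = E + (e + 2 * r) * n := by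
    rw [hn]; ring
  rw [h6] at h5
  exact h5

/-- **the step (S2)** -/
theorem step {a e r q E : ℕ} (hq : 0 < q) (hev : Even q) (h : a + 1 + e + 2 * r = q)
    {ψ : MvPolynomial (Option ι) ℂ} (hψ : wh (w21 ι) (q + 1) ψ) (hnd : Nds ψ) (hZ : ZZ ψ)
    {l : MvPolynomial (Option ι) ℂ} (hl : wh (w21 ι) 1 l)
    (hE : FR (Ideal.span (Set.range (qR l ψ))) E) {n : ℕ} (hn : q ^ Fintype.card ι = 2 * n) :
    ∃ φ, St ι q (E + (e + 2 * r) * n) φ ∧ ZZ φ := by
  obtain ⟨B, A, -, -, -, h1⟩ := step_ev hq hev h hψ hnd hZ hl hE hn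
  obtain ⟨ε, hε, h2⟩ := exists_ne_of_eventually h1
  exact ⟨_, h2 hε⟩

/-- **(S2)** in the form for all small `ε` -/
theorem s2_ev {q : ℕ} (hq : 2 ≤ q) (hev : Even q) (K E s : ℕ) (ψ : MvPolynomial (Option (Option (Fin K))) ℂ)
    (hs : s + 1 ≤ q) (hψ : St (Fin K) q E ψ) (hZ : ZZ ψ) :
    ∃ B A : MvPolynomial (Option (Option (Option (Fin K)))) ℂ,
      wh (vw (Option (Fin K))) (q + 1) B ∧ pderiv (some none) B = A ∧
      (∀ p : Option (Option (Option (Fin K))) → ℂ, p none = 0 → (∀ i, p (some (some i)) = 0) → eval p A = 0 →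
        p (some none) = 0) ∧
      ∀ᶠ ε in 𝓝 (0 : ℂ), ε ≠ 0 → St (Option (Fin K)) q (E + s * (q ^ (K + 1) / 2)) (up ψ + C ε * B) ∧
        ZZ (up ψ + C ε * B) := by
  have hdiv : q ^ Fintype.card (Option (Fin K)) = 2 * (q ^ (K + 1) / 2) := by
    rw [Fintype.card_option, Fintype.card_fin]
    have h1 : 2 ∣ q ^ (K + 1) := dvd_pow hev.two_dvd (by omega)
    omega
  have hs2 : s = s % 2 + 2 * (s / 2) := by omega
  have h2 := step_ev (ι := Option (Fin K)) (a := q - 1 - s) (e := s % 2) (r := s / 2) (by omega) hev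
    (by omega) hψ.wh hψ.nd hZ (l := X (some none)) (wh_X _ _) (by
      rw [qR_option]; exact of_st hψ) hdiv
  rw [← hs2] at h2
  exact h2

/-- **(S2)**, the hypothesis of `u_even` -/
theorem s2 {q : ℕ} (hq : 2 ≤ q) (hev : Even q) (K E s : ℕ) (ψ : MvPolynomial (Option (Option (Fin K))) ℂ)
    (hs : s + 1 ≤ q) (hψ : St (Fin K) q E ψ) (hZ : ZZ ψ) :
    ∃ φ : MvPolynomial (Option (Option (Option (Fin K)))) ℂ,
      St (Option (Fin K)) q (E + s * (q ^ (K + 1) / 2)) φ ∧ ZZ φ := by
  obtain ⟨B, A, -, -, -, h1⟩ := s2_ev hq hev K E s ψ hs hψ hZ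
  obtain ⟨ε, hε, h2⟩ := exists_ne_of_eventually h1
  exact ⟨_, h2 hε⟩

end

end S2
end EY
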